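import Pool.Agent.Helper24.EG.Goals

/-!
# Project EG (MP_98cfca_co, Q2), packet GLUE
-/

set_option autoImplicit false

namespace Pool.Agent.Helper87.EG

open Finset Pool.Agent.Helper24.EG

noncomputable section

variable {V : Type}

/-- the disjoint union of a graph on `S` and a graph on the complement -/
def glue (S : Finset V) (G₁ : SimpleGraph {v // v ∈ S}) (G₂ : SimpleGraph {v // v ∉ S}) :
    SimpleGraph V where
  Adj u v := (∃ (hu : u ∈ S) (hv : v ∈ S), G₁.Adj ⟨u, hu⟩ ⟨v, hv⟩) ∨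
    (∃ (hu : u ∉ S) (hv : v ∉ S), G₂.Adj ⟨u, hu⟩ ⟨v, hv⟩)
  symm := ⟨by
    rintro u v (⟨hu, hv, h⟩ | ⟨hu, hv, h⟩)
    · exact Or.inl ⟨hv, hu, h.symm⟩
    · exact Or.inr ⟨hv, hu, h.symm⟩⟩
  loopless := ⟨by
    rintro u (⟨hu, hv, h⟩ | ⟨hu, hv, h⟩)
    · exact G₁.loopless.irrefl _ h
    · exact G₂.loopless.irrefl _ h⟩

theorem glue_adj_in (S : Finset V) (G₁ : SimpleGraph {v // v ∈ S}) (G₂ : SimpleGraph {v // v ∉ S})
    (u v : {v // v ∈ S}) : (glue S G₁ G₂).Adj u v ↔ G₁.Adj u v := by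
  constructor
  · rintro (⟨hu, hv, h⟩ | ⟨hu, hv, h⟩)
    · exact h
    · exact absurd u.2 hu
  · intro h
    exact Or.inl ⟨u.2, v.2, h⟩

theorem glue_adj_out (S : Finset V) (G₁ : SimpleGraph {v // v ∈ S})
    (G₂ : SimpleGraph {v // v ∉ S}) (u v : {v // v ∉ S}) :
    (glue S G₁ G₂).Adj u v ↔ G₂.Adj u v := by
  constructor
  · rintro (⟨hu, hv, h⟩ | ⟨hu, hv, h⟩)
    · exact absurd hu u.2
    · exact h
  · intro h
    exact Or.inr ⟨u.2, v.2, h⟩

theorem glue_mem (S : Finset V) (G₁ : SimpleGraph {v // v ∈ S}) (G₂ : SimpleGraph {v // v ∉ S})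
    {u v : V} (h : (glue S G₁ G₂).Adj u v) : u ∈ S ↔ v ∈ S := by
  rcases h with ⟨hu, hv, h⟩ | ⟨hu, hv, h⟩
  · exact ⟨fun _ => hv, fun _ => hu⟩
  · exact ⟨fun h => absurd h hu, fun h => absurd h hv⟩

/-- closure under adjacency implies closure under walks -/
theorem walk_mem (G : SimpleGraph V) (S : Finset V) (hS : ∀ u v, G.Adj u v → (u ∈ S ↔ v ∈ S))
    {a b : V} (p : G.Walk a b) : a ∈ S ↔ b ∈ S := by
  induction p with
  | nil => exact Iff.rfl
  | cons h _ ih => exact (hS _ _ h).trans ih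

theorem walk_induce (G : SimpleGraph V) (S : Finset V)
    (hS : ∀ u v, G.Adj u v → (u ∈ S ↔ v ∈ S)) {a b : V} (p : G.Walk a b) :
    ∀ (ha : a ∈ S) (hb : b ∈ S),
      (SimpleGraph.comap (Subtype.val : {v // v ∈ S} → V) G).Reachable ⟨a, ha⟩ ⟨b, hb⟩ := by
  induction p with
  | nil => exact fun ha hb => SimpleGraph.Reachable.refl _
  | @cons u v w h _ ih =>
    intro ha hb
    have hv : v ∈ S := (hS _ _ h).1 ha
    have h1 : (SimpleGraph.comap (Subtype.val : {v // v ∈ S} → V) G).Adj ⟨u, ha⟩ ⟨v, hv⟩ := h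
    exact h1.reachable.trans (ih hv hb)

/-- the conditions for `S` to be the component of `v₀` -/
theorem comp_closed (G : SimpleGraph V) (v₀ : V) (S : Finset V)
    (h : ∀ v, v ∈ S ↔ G.Reachable v₀ v) (u v : V) (huv : G.Adj u v) : u ∈ S ↔ v ∈ S := by
  rw [h u, h v]
  exact ⟨fun h1 => h1.trans huv.reachable, fun h1 => h1.trans huv.symm.reachable⟩

theorem comap_connected (G : SimpleGraph V) (v₀ : V) (S : Finset V) (hv₀ : v₀ ∈ S)
    (h : ∀ v, v ∈ S ↔ G.Reachable v₀ v) :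
    (SimpleGraph.comap (Subtype.val : {v // v ∈ S} → V) G).Connected := by
  rw [SimpleGraph.connected_iff_exists_forall_reachable]
  refine ⟨⟨v₀, hv₀⟩, fun w => ?_⟩
  obtain ⟨p⟩ := (h w).1 w.2
  exact walk_induce G S (comp_closed G v₀ S h) p hv₀ w.2

theorem glue_comp (v₀ : V) (S : Finset V) (hv₀ : v₀ ∈ S) (G₁ : SimpleGraph {v // v ∈ S})
    (G₂ : SimpleGraph {v // v ∉ S}) (h : G₁.Connected) (v : V) :
    v ∈ S ↔ (glue S G₁ G₂).Reachable v₀ v := by
  constructor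
  · intro hv
    have h1 : G₁.Reachable ⟨v₀, hv₀⟩ ⟨v, hv⟩ := h.preconnected _ _
    let f : G₁ →g glue S G₁ G₂ := ⟨Subtype.val, fun {a b} hab => (glue_adj_in S G₁ G₂ a b).2 hab⟩
    exact h1.map f
  · rintro ⟨p⟩
    exact (walk_mem _ S (fun u v huv => glue_mem S G₁ G₂ huv) p).1 hv₀

theorem glue_comap (G : SimpleGraph V) (S : Finset V)
    (hS : ∀ u v, G.Adj u v → (u ∈ S ↔ v ∈ S)) :
    glue S (SimpleGraph.comap Subtype.val G) (SimpleGraph.comap Subtype.val G) = G := by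
  ext u v
  constructor
  · rintro (⟨hu, hv, h⟩ | ⟨hu, hv, h⟩)
    · exact h
    · exact h
  · intro h
    by_cases hu : u ∈ S
    · exact Or.inl ⟨hu, (hS _ _ h).1 hu, h⟩
    · exact Or.inr ⟨hu, fun hv => hu ((hS _ _ h).2 hv), h⟩

/-! ### weights -/

theorem nbr_in (S : Finset V) (G₁ : SimpleGraph {v // v ∈ S}) (G₂ : SimpleGraph {v // v ∉ S})
    (u : {v // v ∈ S}) :
    ((glue S G₁ G₂).neighborSet u).ncard = (G₁.neighborSet u).ncard := by
  rw [← Set.ncard_image_of_injective (G₁.neighborSet u) Subtype.val_injective]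
  congr 1
  ext v
  constructor
  · intro h
    have hv : v ∈ S := (glue_mem S G₁ G₂ h).1 u.2
    exact ⟨⟨v, hv⟩, (glue_adj_in S G₁ G₂ u ⟨v, hv⟩).1 h, rfl⟩
  · rintro ⟨w, hw, rfl⟩
    exact (glue_adj_in S G₁ G₂ u w).2 hw

theorem nbr_out (S : Finset V) (G₁ : SimpleGraph {v // v ∈ S}) (G₂ : SimpleGraph {v // v ∉ S})
    (u : {v // v ∉ S}) :
    ((glue S G₁ G₂).neighborSet u).ncard = (G₂.neighborSet u).ncard := by
  rw [← Set.ncard_image_of_injective (G₂.neighborSet u) Subtype.val_injective]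
  congr 1
  ext v
  constructor
  · intro h
    have hv : v ∉ S := fun hv => u.2 ((glue_mem S G₁ G₂ h).2 hv)
    exact ⟨⟨v, hv⟩, (glue_adj_out S G₁ G₂ u ⟨v, hv⟩).1 h, rfl⟩
  · rintro ⟨w, hw, rfl⟩
    exact (glue_adj_out S G₁ G₂ u w).2 hw

theorem edges (S : Finset V) (G₁ : SimpleGraph {v // v ∈ S}) (G₂ : SimpleGraph {v // v ∉ S}) :
    (glue S G₁ G₂).edgeSet = Sym2.map Subtype.val '' G₁.edgeSet ∪
      Sym2.map Subtype.val '' G₂.edgeSet := by
  ext e
  induction e with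
  | h u v =>
    rw [SimpleGraph.mem_edgeSet]
    constructor
    · rintro (⟨hu, hv, h⟩ | ⟨hu, hv, h⟩)
      · exact Or.inl ⟨s(⟨u, hu⟩, ⟨v, hv⟩), h, rfl⟩
      · exact Or.inr ⟨s(⟨u, hu⟩, ⟨v, hv⟩), h, rfl⟩
    · rintro (⟨e, he, h⟩ | ⟨e, he, h⟩)
      · induction e with
        | h a b =>
          rw [Sym2.map_mk] at h
          have h1 : (glue S G₁ G₂).Adj a b := (glue_adj_in S G₁ G₂ a b).2 he
          rw [← SimpleGraph.mem_edgeSet] at h1 ⊢
          rwa [← h]
      · induction e with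
        | h a b =>
          rw [Sym2.map_mk] at h
          have h1 : (glue S G₁ G₂).Adj a b := (glue_adj_out S G₁ G₂ a b).2 he
          rw [← SimpleGraph.mem_edgeSet] at h1 ⊢
          rwa [← h]

theorem edges_ncard [Finite V] (S : Finset V) (G₁ : SimpleGraph {v // v ∈ S})
    (G₂ : SimpleGraph {v // v ∉ S}) :
    (glue S G₁ G₂).edgeSet.ncard = G₁.edgeSet.ncard + G₂.edgeSet.ncard := by
  have hd : Disjoint (Sym2.map Subtype.val '' G₁.edgeSet)
      (Sym2.map Subtype.val '' G₂.edgeSet : Set (Sym2 V)) := by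
    rw [Set.disjoint_left]
    rintro _ ⟨e, he, rfl⟩ ⟨e', he', h⟩
    induction e with
    | h a b =>
      induction e' with
      | h c d =>
        rw [Sym2.map_mk, Sym2.map_mk] at h
        have h1 : (c : V) ∈ s((a : V), (b : V)) := by
          rw [← h]
          exact Sym2.mem_mk_left _ _
        rw [Sym2.mem_iff] at h1
        rcases h1 with h1 | h1
        · exact c.2 (h1 ▸ a.2)
        · exact c.2 (h1 ▸ b.2)
  rw [edges, Set.ncard_union_eq hd (Set.toFinite _) (Set.toFinite _),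
    Set.ncard_image_of_injective _ (Sym2.map.injective Subtype.val_injective),
    Set.ncard_image_of_injective _ (Sym2.map.injective Subtype.val_injective)]

theorem even_iff (S : Finset V) (G₁ : SimpleGraph {v // v ∈ S}) (G₂ : SimpleGraph {v // v ∉ S}) :
    (∀ v, Even ((glue S G₁ G₂).neighborSet v).ncard) ↔
      (∀ v, Even (G₁.neighborSet v).ncard) ∧ ∀ v, Even (G₂.neighborSet v).ncard := by
  constructor
  · intro h
    exact ⟨fun v => by rw [← nbr_in S G₁ G₂]; exact h v,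
      fun v => by rw [← nbr_out S G₁ G₂]; exact h v⟩
  · rintro ⟨h1, h2⟩ v
    by_cases hv : v ∈ S
    · rw [nbr_in S G₁ G₂ ⟨v, hv⟩]
      exact h1 _
    · rw [nbr_out S G₁ G₂ ⟨v, hv⟩]
      exact h2 _

theorem wG_glue [Finite V] (S : Finset V) (G₁ : SimpleGraph {v // v ∈ S})
    (G₂ : SimpleGraph {v // v ∉ S}) (z : ℂ) :
    wG z (glue S G₁ G₂) = wG z G₁ * wG z G₂ := by
  unfold wG
  by_cases h1 : ∀ v, Even (G₁.neighborSet v).ncard
  · by_cases h2 : ∀ v, Even (G₂.neighborSet v).ncard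
    · rw [if_pos ((even_iff S G₁ G₂).2 ⟨h1, h2⟩), if_pos h1, if_pos h2, edges_ncard, pow_add]
    · rw [if_neg fun h => h2 ((even_iff S G₁ G₂).1 h).2, if_neg h2, mul_zero]
  · rw [if_neg fun h => h1 ((even_iff S G₁ G₂).1 h).1, if_neg h1, zero_mul]

theorem cG_eq {V : Type} (z : ℂ) (G : SimpleGraph V) (h : G.Connected) : cG z G = wG z G := by
  unfold cG wG
  by_cases h1 : ∀ v, Even (G.neighborSet v).ncard
  · rw [if_pos ⟨h1, h⟩, if_pos h1]
  · rw [if_neg fun h2 => h1 h2.1, if_neg h1]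

theorem cG_zero {V : Type} (z : ℂ) (G : SimpleGraph V) (h : ¬ G.Connected) : cG z G = 0 := by
  unfold cG
  rw [if_neg fun h2 => h h2.2]

theorem gGLUE : G_GLUE := by
  intro V _ _ v₀ S hv₀ z
  classical
  rw [Finset.sum_mul_sum, ← Finset.sum_product', ← Finset.sum_filter]
  rw [← Finset.sum_filter_of_ne (p := fun x : SimpleGraph {v // v ∈ S} × SimpleGraph {v // v ∉ S} =>
    x.1.Connected)]
  · refine Finset.sum_nbij' (fun G => (SimpleGraph.comap Subtype.val G,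
      SimpleGraph.comap Subtype.val G)) (fun x => glue S x.1 x.2) ?_ ?_ ?_ ?_ ?_
    · intro G hG
      rw [Finset.mem_filter] at hG ⊢
      exact ⟨Finset.mem_product.2 ⟨Finset.mem_univ _, Finset.mem_univ _⟩,
        comap_connected G v₀ S hv₀ hG.2⟩
    · intro x hx
      rw [Finset.mem_filter] at hx ⊢
      exact ⟨Finset.mem_univ _, glue_comp v₀ S hv₀ x.1 x.2 hx.2⟩
    · intro G hG
      rw [Finset.mem_filter] at hG
      exact glue_comap G S (comp_closed G v₀ S hG.2)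
    · rintro ⟨G₁, G₂⟩ _
      refine Prod.ext ?_ ?_
      · ext u v
        exact glue_adj_in S G₁ G₂ u v
      · ext u v
        exact glue_adj_out S G₁ G₂ u v
    · intro G hG
      rw [Finset.mem_filter] at hG
      have h1 := glue_comap G S (comp_closed G v₀ S hG.2)
      rw [cG_eq z _ (comap_connected G v₀ S hv₀ hG.2), ← wG_glue, h1]
  · intro x _ hx
    by_contra hc
    exact hx (by rw [cG_zero z _ hc, zero_mul])

end

end Pool.Agent.Helper87.EG
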